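import Pool.Agent.W476.TP.Stm

/-!
# Homogeneous ideals and linear sections
-/

set_option autoImplicit false

namespace Pool.Agent.W82.TP

open MvPolynomial Pool.Agent.W476.TP

variable {K : Type} [Field K] {n : ℕ}

/-- The zero set is a cone. -/
def Cone (I : Ideal (MvPolynomial (Fin (n + 1)) K)) : Prop :=
  ∀ x : Fin (n + 1) → K, (∀ P ∈ I, eval x P = 0) → ∀ c : K, ∀ P ∈ I, eval (c • x) P = 0

theorem eval_smul_hom (P : MvPolynomial (Fin (n + 1)) K) (k : ℕ) (hP : P.IsHomogeneous k)
    (x : Fin (n + 1) → K) (c : K) : eval (c • x) P = c ^ k * eval x P := by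
  rw [eval_eq', eval_eq', Finset.mul_sum]
  refine Finset.sum_congr rfl fun α hα => ?_
  have h1 : ∑ i, α i = k := by
    have h2 := hP (mem_support_iff.mp hα)
    rw [Finsupp.weight_apply, Finsupp.sum_fintype] at h2
    · simpa using h2
    · intro i; simp
  have h2 : ∏ i, (c • x) i ^ α i = c ^ k * ∏ i, x i ^ α i := by
    simp only [Pi.smul_apply, smul_eq_mul, mul_pow]
    rw [Finset.prod_mul_distrib, Finset.prod_pow_eq_pow_sum, h1]
  rw [h2]
  ring

theorem cone_of_homI (I : Ideal (MvPolynomial (Fin (n + 1)) K)) (hI : HomI I) : Cone I := by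
  intro x hx c P hP
  rw [← sum_homogeneousComponent P, map_sum]
  refine Finset.sum_eq_zero fun k _ => ?_
  rw [eval_smul_hom _ k (homogeneousComponent_isHomogeneous k P), hx _ (hI P hP k), mul_zero]

/-- The linear form with given coefficients. -/
noncomputable def lin (l : Fin (n + 1) → K) : MvPolynomial (Fin (n + 1)) K :=
  ∑ i, C (l i) * X i

theorem eval_lin (l x : Fin (n + 1) → K) : eval x (lin l) = ∑ i, l i * x i := by
  unfold lin
  rw [map_sum]
  refine Finset.sum_congr rfl fun i _ => ?_
  rw [map_mul, eval_C, eval_X]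

/-- The linear forms in an ideal. -/
noncomputable def linSub (P : Ideal (MvPolynomial (Fin (n + 1)) K)) :
    Submodule K (Fin (n + 1) → K) where
  carrier := {l | lin l ∈ P}
  add_mem' := by
    intro a b ha hb
    have h : lin (a + b) = lin a + lin b := by
      unfold lin
      rw [← Finset.sum_add_distrib]
      refine Finset.sum_congr rfl fun i _ => ?_
      rw [Pi.add_apply, C_add, add_mul]
    change lin (a + b) ∈ P
    rw [h]
    exact P.add_mem ha hb
  zero_mem' := by
    have h : lin (0 : Fin (n + 1) → K) = 0 := by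
      unfold lin
      simp
    change lin (0 : Fin (n + 1) → K) ∈ P
    rw [h]
    exact P.zero_mem
  smul_mem' := by
    intro c a ha
    have h : lin (c • a) = C c * lin a := by
      unfold lin
      rw [Finset.mul_sum]
      refine Finset.sum_congr rfl fun i _ => ?_
      rw [Pi.smul_apply, smul_eq_mul, C_mul, mul_assoc]
    change lin (c • a) ∈ P
    rw [h]
    exact P.mul_mem_left _ ha

theorem lin_single (i : Fin (n + 1)) : lin (Pi.single i (1 : K)) = X i := by
  unfold lin
  rw [Finset.sum_eq_single i]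
  · rw [Pi.single_eq_same, C_1, one_mul]
  · intro j _ hj
    rw [Pi.single_eq_of_ne hj, C_0, zero_mul]
  · intro h
    exact absurd (Finset.mem_univ i) h

/-- An ideal containing all variables contains the polynomials without constant term. -/
theorem sub_const_mem (P : Ideal (MvPolynomial (Fin (n + 1)) K)) (hP : ∀ i, X i ∈ P)
    (f : MvPolynomial (Fin (n + 1)) K) : f - C (constantCoeff f) ∈ P := by
  induction f using MvPolynomial.induction_on with
  | C a => rw [constantCoeff_C, sub_self]; exact P.zero_mem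
  | add p q hp hq =>
    have h : p + q - C (constantCoeff (p + q)) =
        (p - C (constantCoeff p)) + (q - C (constantCoeff q)) := by
      rw [map_add, C_add]; ring
    rw [h]
    exact P.add_mem hp hq
  | mul_X p i _ =>
    rw [map_mul, constantCoeff_X, mul_zero, C_0, sub_zero]
    exact P.mul_mem_left _ (hP i)

theorem eq_of_le (P Q : Ideal (MvPolynomial (Fin (n + 1)) K)) (hP : ∀ i, X i ∈ P) (hPQ : P ≤ Q)
    (hQ : Q ≠ ⊤) : P = Q := by
  refine le_antisymm hPQ fun f hf => ?_
  have h1 := sub_const_mem P hP f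
  by_cases h0 : constantCoeff f = 0
  · rw [h0, C_0, sub_zero] at h1
    exact h1
  · exfalso
    apply hQ
    have h2 : C (constantCoeff f) ∈ Q := by
      have h3 := Q.sub_mem hf (hPQ h1)
      rwa [sub_sub_cancel] at h3
    rw [Ideal.eq_top_iff_one]
    have h3 := Q.mul_mem_left (C (constantCoeff f)⁻¹) h2
    rwa [← C_mul, inv_mul_cancel₀ h0, C_1] at h3

/-- The restriction to a line through the origin. -/
noncomputable def toLine (x : Fin (n + 1) → K) :
    MvPolynomial (Fin (n + 1)) K →ₐ[K] Polynomial K :=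
  aeval fun i => Polynomial.C (x i) * Polynomial.X

theorem eval_toLine (x : Fin (n + 1) → K) (P : MvPolynomial (Fin (n + 1)) K) (c : K) :
    Polynomial.eval c (toLine x P) = eval (c • x) P := by
  have h : (Polynomial.evalRingHom c).comp (toLine x).toRingHom = eval (c • x) := by
    refine MvPolynomial.ringHom_ext ?_ ?_
    · intro a
      simp [toLine]
    · intro i
      change Polynomial.eval c (toLine x (X i)) = eval (c • x) (X i)
      unfold toLine
      rw [aeval_X, eval_X, Polynomial.eval_mul, Polynomial.eval_C, Polynomial.eval_X,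
        Pi.smul_apply, smul_eq_mul, mul_comm]
  exact RingHom.congr_fun h P

theorem zero_case [Infinite K] (I : Ideal (MvPolynomial (Fin (n + 1)) K)) (hI : Cone I)
    (hd : ringKrullDim (MvPolynomial (Fin (n + 1)) K ⧸ I) ≤ (0 : ℕ)) (x : Fin (n + 1) → K)
    (hx : ∀ P ∈ I, eval x P = 0) : x = 0 := by
  by_contra hx0
  obtain ⟨i, hi⟩ := Function.ne_iff.mp hx0
  have hker : ∀ P ∈ I, (toLine x).toRingHom P = 0 := by
    intro P hP
    refine Polynomial.funext fun c => ?_
    change Polynomial.eval c (toLine x P) = _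
    rw [eval_toLine, hI x hx c P hP, Polynomial.eval_zero]
  let f : MvPolynomial (Fin (n + 1)) K ⧸ I →+* Polynomial K :=
    Ideal.Quotient.lift I (toLine x).toRingHom hker
  have hf : Function.Surjective f := by
    refine Ideal.Quotient.lift_surjective_of_surjective _ _ ?_
    have h1 : (toLine x) (C (x i)⁻¹ * X i) = Polynomial.X := by
      unfold toLine
      rw [map_mul, aeval_C, aeval_X, Polynomial.algebraMap_eq, ← mul_assoc, ← Polynomial.C_mul,
        inv_mul_cancel₀ hi, Polynomial.C_1, one_mul]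
    intro g
    refine ⟨Polynomial.aeval (C (x i)⁻¹ * X i) g, ?_⟩
    change toLine x (Polynomial.aeval (C (x i)⁻¹ * X i) g) = g
    rw [← Polynomial.aeval_algHom_apply, h1, Polynomial.aeval_X_left_apply]
  have h1 := (ringKrullDim_le_of_surjective f hf).trans hd
  rw [IsPrincipalIdealRing.ringKrullDim_eq_one (Polynomial K) (Polynomial.not_isField K)] at h1
  exact absurd h1 (by decide)

theorem step_dim (I : Ideal (MvPolynomial (Fin (n + 1)) K)) (d : ℕ)
    (hd : ringKrullDim (MvPolynomial (Fin (n + 1)) K ⧸ I) ≤ ((d + 1 : ℕ) : WithBot ℕ∞))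
    (lam : MvPolynomial (Fin (n + 1)) K)
    (hl : ∀ P ∈ I.minimalPrimes, (¬ ∀ i, X i ∈ P) → lam ∉ P) :
    ringKrullDim (MvPolynomial (Fin (n + 1)) K ⧸ (I ⊔ Ideal.span {lam})) ≤ d := by
  rw [ringKrullDim_quotient] at hd ⊢
  refine iSup_le fun s => ?_
  have hIJ : ∀ q : PrimeSpectrum.zeroLocus (R := MvPolynomial (Fin (n + 1)) K)
      ((I ⊔ Ideal.span {lam} : Ideal (MvPolynomial (Fin (n + 1)) K)) :
        Set (MvPolynomial (Fin (n + 1)) K)), I ≤ q.1.asIdeal ∧ lam ∈ q.1.asIdeal := by
    intro q
    have h1 : (I ⊔ Ideal.span {lam}) ≤ q.1.asIdeal := q.2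
    exact ⟨le_sup_left.trans h1, h1 (Ideal.mem_sup_right (Ideal.mem_span_singleton_self lam))⟩
  obtain ⟨P, hP, hPs⟩ := Ideal.exists_minimalPrimes_le (J := s.head.1.asIdeal) (hIJ s.head).1
  by_cases hX : ∀ i, X i ∈ P
  · -- maximal ideal
    have h1 : P = s.head.1.asIdeal := eq_of_le P _ hX hPs s.head.1.2.ne_top
    have h2 : P = s.last.1.asIdeal := by
      refine eq_of_le P _ hX (hPs.trans ?_) s.last.1.2.ne_top
      exact s.head_le_last
    have h3 : s.length = 0 := by
      by_contra h4
      have h5 : s.head < s.last := s.strictMono (by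
        rw [Fin.lt_def]
        change 0 < s.length
        omega)
      have h6 : s.head.1.asIdeal < s.last.1.asIdeal := h5
      rw [← h1, ← h2] at h6
      exact lt_irrefl _ h6
    rw [h3]
    exact_mod_cast Nat.zero_le d
  · have hlP := hl P hP hX
    let f : PrimeSpectrum.zeroLocus (R := MvPolynomial (Fin (n + 1)) K)
      ((I ⊔ Ideal.span {lam} : Ideal (MvPolynomial (Fin (n + 1)) K)) :
        Set (MvPolynomial (Fin (n + 1)) K)) →
        PrimeSpectrum.zeroLocus (R := MvPolynomial (Fin (n + 1)) K)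
          (I : Set (MvPolynomial (Fin (n + 1)) K)) := fun q => ⟨q.1, (hIJ q).1⟩
    let p' : PrimeSpectrum.zeroLocus (R := MvPolynomial (Fin (n + 1)) K)
          (I : Set (MvPolynomial (Fin (n + 1)) K)) := ⟨⟨P, hP.1.1⟩, hP.1.2⟩
    have hlt : p' < (s.map f (fun _ _ h => h)).head := by
      have h1 : P < s.head.1.asIdeal := by
        refine lt_of_le_of_ne hPs fun h2 => hlP ?_
        rw [h2]
        exact (hIJ s.head).2
      exact h1
    have h1 := (le_iSup (fun s : LTSeries (PrimeSpectrum.zeroLocus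
      (R := MvPolynomial (Fin (n + 1)) K) (I : Set (MvPolynomial (Fin (n + 1)) K))) =>
      (s.length : WithBot ℕ∞)) ((s.map f (fun _ _ h => h)).cons p' hlt)).trans hd
    have h2 : ((s.map f (fun _ _ h => h)).cons p' hlt).length = s.length + 1 := by
      rw [RelSeries.cons_length]
      rfl
    rw [h2] at h1
    have h3 : s.length + 1 ≤ d + 1 := by exact_mod_cast h1
    exact_mod_cast Nat.le_of_succ_le_succ h3

theorem exists_lin [Infinite K] (I : Ideal (MvPolynomial (Fin (n + 1)) K)) :
    ∃ l : Fin (n + 1) → K, ∀ P ∈ I.minimalPrimes, (¬ ∀ i, X i ∈ P) → lin l ∉ P := by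
  classical
  have hfin := Ideal.finite_minimalPrimes_of_isNoetherianRing (MvPolynomial (Fin (n + 1)) K) I
  let S : Finset (Subspace K (Fin (n + 1) → K)) :=
    (hfin.toFinset.filter fun P => ¬ ∀ i, X i ∈ P).image linSub
  have hS : (⊤ : Subspace K (Fin (n + 1) → K)) ∉ S := by
    intro h
    obtain ⟨P, hP, hP2⟩ := Finset.mem_image.mp h
    rw [Finset.mem_filter] at hP
    apply hP.2
    intro i
    have h1 : Pi.single i (1 : K) ∈ linSub P := by rw [hP2]; trivial
    have h2 : lin (Pi.single i (1 : K)) ∈ P := h1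
    rwa [lin_single] at h2
  have h1 := Subspace.biUnion_ne_univ_of_top_notMem hS
  obtain ⟨l, hl⟩ := (Set.ne_univ_iff_exists_notMem _).mp h1
  refine ⟨l, fun P hP hX hlP => hl ?_⟩
  rw [Set.mem_iUnion₂]
  refine ⟨linSub P, Finset.mem_image_of_mem _ ?_, hlP⟩
  rw [Finset.mem_filter]
  exact ⟨hfin.mem_toFinset.mpr hP, hX⟩

theorem dl_aux [Infinite K] (d : ℕ) : ∀ (I : Ideal (MvPolynomial (Fin (n + 1)) K)), Cone I →
    ringKrullDim (MvPolynomial (Fin (n + 1)) K ⧸ I) ≤ (d : WithBot ℕ∞) →
    ∃ l : Fin d → Fin (n + 1) → K, ∀ x : Fin (n + 1) → K, (∀ P ∈ I, eval x P = 0) →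
      (∀ k, ∑ i, l k i * x i = 0) → x = 0 := by
  induction d with
  | zero =>
    intro I hI hd
    exact ⟨fun _ => 0, fun x hx _ => zero_case I hI hd x hx⟩
  | succ d ih =>
    intro I hI hd
    obtain ⟨l₀, hl₀⟩ := exists_lin I
    have hmem : ∀ x : Fin (n + 1) → K, (∀ P ∈ I ⊔ Ideal.span {lin l₀}, eval x P = 0) ↔
        ((∀ P ∈ I, eval x P = 0) ∧ ∑ i, l₀ i * x i = 0) := by
      intro x
      constructor
      · intro h
        refine ⟨fun P hP => h P (Ideal.mem_sup_left hP), ?_⟩
        rw [← eval_lin]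
        exact h _ (Ideal.mem_sup_right (Ideal.mem_span_singleton_self _))
      · rintro ⟨h1, h2⟩
        have h3 : I ⊔ Ideal.span {lin l₀} ≤ RingHom.ker (eval x) := by
          refine sup_le (fun P hP => h1 P hP) ?_
          rw [Ideal.span_singleton_le_iff_mem]
          change eval x (lin l₀) = 0
          rw [eval_lin, h2]
        exact fun P hP => h3 hP
    have hc : Cone (I ⊔ Ideal.span {lin l₀}) := by
      intro x hx c
      rw [hmem] at hx ⊢
      refine ⟨hI x hx.1 c, ?_⟩
      have h1 : ∑ i, l₀ i * (c • x) i = c * ∑ i, l₀ i * x i := by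
        rw [Finset.mul_sum]
        refine Finset.sum_congr rfl fun i _ => ?_
        rw [Pi.smul_apply, smul_eq_mul]
        ring
      rw [h1, hx.2, mul_zero]
    obtain ⟨l, hl⟩ := ih _ hc (step_dim I d hd (lin l₀) hl₀)
    refine ⟨Fin.cons l₀ l, fun x hx hx2 => hl x ?_ fun k => ?_⟩
    · rw [hmem]
      exact ⟨hx, hx2 0⟩
    · exact hx2 k.succ

theorem t_DL : S_DL := by
  intro K _ _ n d I hI hd
  have : Infinite K := IsAlgClosed.instInfinite
  exact dl_aux d I (cone_of_homI I hI) hd

end Pool.Agent.W82.TP
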